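import Pool.Agent.R268.Mac.Rdpp
import Pool.Agent.R268.Mac.Far

/-!
# A space with the RDPP on whose dual `ω_m` and `χ_m` are not equivalent

Negative answer to Q1 of MP_997199_an.  The space is the `c_0`-sum of the renormings
`|y|_k = inf {max(|t|_1, k |z|_∞) : y = J t + z}` of the space of all bounded functions on the
set of sign sequences, where `J : ℓ_1 → ℓ_∞` is the Rademacher embedding; it is realised as a
quotient of the `c_0`-sum of copies of `ℓ_1 × ℓ_∞`.

The definitions (in `Pool/Agent/R268/Mac/Defs.lean`) are: `WCompact L`, `L` is weakly compact;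
`WConv`, weak convergence of sequences; `ComplCont T`, `T` is completely continuous;
`WCompactOp T`, `T` is weakly compact; `RDPP X`; `MackeyCompact H`, compactness in the topology
of uniform convergence on weakly compact sets; `supDist L f g = sup_{x ∈ L} |f x - g x|`;
`chiZero L A = χ₀(A|_L)`; `chiM A = χ_m(A)`; `omegaM A = ω_m(A)` (values in `[0, ∞]`).
-/

open Pool.Agent.R268.Mac
open scoped ENNReal

namespace Pool.Agent.Results.MP_997199_an.MeasuresNotEquivalent

/-- There is a real Banach space `X` with the RDPP such that for every `n` some nonempty bounded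
`A ⊆ X*` has `ω_m(A) > n χ_m(A)`. -/
theorem result : ∃ (X : Type) (_ : NormedAddCommGroup X) (_ : NormedSpace ℝ X)
    (_ : CompleteSpace X), RDPP X ∧ ∀ n : ℕ, ∃ A : Set (X →L[ℝ] ℝ), A.Nonempty ∧
      Bornology.IsBounded A ∧ (n : ℝ≥0∞) * chiM A < omegaM A := by
  obtain ⟨X, i1, i2, i3, ⟨D⟩⟩ := exists_data
  have hR : RDPP X := rdpp_of_data D
  refine ⟨X, i1, i2, i3, hR, ?_⟩
  intro n
  -- choose the index
  let k : ℕ := 28 * n + 1
  refine ⟨Set.range (gk D k), Set.range_nonempty _, ?_, ?_⟩
  · rw [isBounded_iff_forall_norm_le]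
    refine ⟨‖D.y k‖, ?_⟩
    rintro _ ⟨j, rfl⟩
    apply ContinuousLinearMap.opNorm_le_bound _ (ContinuousLinearMap.opNorm_nonneg _)
    intro x
    exact (abs_fN_le j _).trans ((D.y k).le_opNorm x)
  · have h1 := chiM_le D k
    have h2 := le_omegaM D hR k
    refine lt_of_lt_of_le ?_ h2
    refine lt_of_le_of_lt (mul_le_mul_right h1 _) ?_
    rw [← ENNReal.ofReal_natCast, ← ENNReal.ofReal_mul (Nat.cast_nonneg n)]
    rw [ENNReal.ofReal_lt_ofReal_iff (by norm_num)]
    have hk : ((k : ℕ) : ℝ) + 1 = 28 * (n : ℝ) + 2 := by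
      simp only [k]
      push_cast
      ring
    rw [hk, mul_div_assoc', div_lt_div_iff₀ (by positivity) (by norm_num)]
    linarith

end Pool.Agent.Results.MP_997199_an.MeasuresNotEquivalent
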